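import Mathlib
import Pool.Agent.H392Z.MO.Spec2

/-! Poor blocks are sparse (task FamA of helper392). -/

set_option autoImplicit false

open Finset

namespace Pool.Agent.H949Z.MO

open Pool.Agent.H392Z.MO

theorem tt_step {A : ℝ} (hA : 1 ≤ A) (j : ℕ) : tt A j + HH A j ≤ tt A (j + 1) := by
  unfold tt HH
  rcases Nat.eq_zero_or_pos j with rfl | hj
  · have h1 : (0 : ℝ) ^ A = 0 := Real.zero_rpow (by linarith)
    have h2 : (0 : ℝ) ^ (A - 1) ≤ 1 := Real.zero_rpow_le_one _
    simp only [Nat.cast_zero, h1, zero_add, Nat.cast_one, Real.one_rpow]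
    exact h2
  have hj0 : (0 : ℝ) < j := by exact_mod_cast hj
  have e1 : (j : ℝ) ^ A = j * (j : ℝ) ^ (A - 1) := by
    rw [Real.rpow_sub_one hj0.ne']; field_simp
  have e2 : ((j + 1 : ℕ) : ℝ) ^ A = (j + 1) * ((j : ℝ) + 1) ^ (A - 1) := by
    push_cast
    rw [Real.rpow_sub_one (by positivity)]; field_simp
  have e3 : (j : ℝ) ^ (A - 1) ≤ ((j : ℝ) + 1) ^ (A - 1) :=
    Real.rpow_le_rpow hj0.le (by linarith) (by linarith)
  rw [e1, e2]
  nlinarith

theorem tt_mono {A : ℝ} (hA : 1 ≤ A) {i j : ℕ} (h : i ≤ j) : tt A i ≤ tt A j :=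
  Real.rpow_le_rpow (Nat.cast_nonneg _) (by exact_mod_cast h) (by linarith)

open Classical in
theorem shell (hF : FewPoor) {lam A : ℝ} (hlam : 0 < lam) (hA2 : A < 2) (hA1 : 2 - lam / 4 ≤ A)
    (hA0 : 2 - 1 / 100 ≤ A) :
    ∃ C J₀ : ℝ, 0 < C ∧ ∀ J : ℝ, J₀ ≤ J → ∀ S : Finset ℕ,
      (∀ j ∈ S, Poor A j ∧ J ≤ j ∧ (j : ℝ) ≤ 4 / 3 * J) → (S.card : ℝ) ≤ C * J ^ lam := by
  obtain ⟨C, X₀, hC, h⟩ := hF (lam / 4) (by positivity)
  refine ⟨C, max X₀ 2, hC, fun J hJ S hS => ?_⟩
  have hJ2 : 2 ≤ J := (le_max_right _ _).trans hJ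
  have hJ1 : 1 ≤ J := by linarith
  have hJ0 : 0 < J := by linarith
  have hA : 1 ≤ A := by linarith
  have hlog : 0 < Real.log J := Real.log_pos (by linarith)
  have hX : X₀ ≤ J ^ A := by
    have : J ^ (1 : ℝ) ≤ J ^ A := Real.rpow_le_rpow_of_exponent_le hJ1 hA
    rw [Real.rpow_one] at this
    linarith [le_max_left X₀ 2]
  have hHj : ∀ j ∈ S, J ^ (A - 1) ≤ HH A j := fun j hj =>
    Real.rpow_le_rpow hJ0.le (hS j hj).2.1 (by linarith)
  have hHpos : 0 < J ^ (A - 1) := Real.rpow_pos_of_pos hJ0 _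
  have hsep : ∀ i ∈ S, ∀ j : ℕ, i < j → J ^ (A - 1) ≤ tt A j - tt A i := by
    intro i hi j hij
    have h1 := tt_step hA i
    have h2 : tt A (i + 1) ≤ tt A j := tt_mono hA hij
    have h3 := hHj i hi
    linarith
  have hinj : Set.InjOn (tt A) S := by
    intro i hi j hj hij
    by_contra hne
    rcases lt_or_gt_of_ne hne with h1 | h1
    · have := hsep i hi j h1; linarith
    · have := hsep j hj i h1; linarith
  have key := h (J ^ A) hX (J ^ (A - 1))
    (by rw [← Real.rpow_mul hJ0.le]; exact Real.rpow_le_rpow_of_exponent_le hJ1 (by linarith))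
    (by rw [← Real.rpow_mul hJ0.le]; exact Real.rpow_le_rpow_of_exponent_le hJ1 (by linarith))
    (S.image (tt A)) ?_ ?_ ?_
  · rw [card_image_of_injOn hinj] at key
    refine key.trans ?_
    rw [mul_div_assoc, ← Real.rpow_mul hJ0.le, ← Real.rpow_natCast, ← Real.rpow_mul hJ0.le,
      ← Real.rpow_sub hJ0]
    refine mul_le_mul_of_nonneg_left (Real.rpow_le_rpow_of_exponent_le hJ1 ?_) hC.le
    push_cast
    nlinarith
  · intro t ht
    obtain ⟨j, hj, rfl⟩ := mem_image.1 ht
    refine ⟨Real.rpow_le_rpow hJ0.le (hS j hj).2.1 (by linarith), ?_⟩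
    calc tt A j ≤ (4 / 3 * J) ^ A :=
          Real.rpow_le_rpow (Nat.cast_nonneg _) (hS j hj).2.2 (by linarith)
      _ = (4 / 3) ^ A * J ^ A := Real.mul_rpow (by norm_num) hJ0.le
      _ ≤ 2 * J ^ A := by
          have h1 : (4 / 3 : ℝ) ^ A ≤ (4 / 3) ^ (2 : ℝ) :=
            Real.rpow_le_rpow_of_exponent_le (by norm_num) hA2.le
          have h2 : (4 / 3 : ℝ) ^ (2 : ℝ) = 16 / 9 := by
            rw [Real.rpow_two]; norm_num
          have h3 := Real.rpow_pos_of_pos hJ0 A
          nlinarith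
  · intro s hs t ht hst
    obtain ⟨i, hi, rfl⟩ := mem_image.1 hs
    obtain ⟨j, hj, rfl⟩ := mem_image.1 ht
    have hne : i ≠ j := fun h => hst (h ▸ rfl)
    rcases lt_or_gt_of_ne hne with h1 | h1
    · rw [abs_sub_comm]; exact (hsep i hi j h1).trans (le_abs_self _)
    · exact (hsep j hj i h1).trans (le_abs_self _)
  · intro t ht
    obtain ⟨j, hj, rfl⟩ := mem_image.1 ht
    have hsub : Ival (tt A j) (J ^ (A - 1)) ⊆ B A j := by
      unfold Ival B
      refine Finset.Ico_subset_Ico le_rfl (Nat.ceil_mono ?_)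
      have h1 := tt_step hA j
      have h3 := hHj j hj
      linarith
    have h1 : (((Ival (tt A j) (J ^ (A - 1))).filter Nat.Prime).card : ℝ) ≤
        (((B A j).filter Nat.Prime).card : ℝ) := by
      exact_mod_cast card_le_card (filter_subset_filter _ hsub)
    refine h1.trans ((hS j hj).1.trans ?_)
    have h2 : HH A j ≤ 4 / 3 * J ^ (A - 1) := by
      calc HH A j ≤ (4 / 3 * J) ^ (A - 1) :=
            Real.rpow_le_rpow (Nat.cast_nonneg _) (hS j hj).2.2 (by linarith)
        _ = (4 / 3) ^ (A - 1) * J ^ (A - 1) := Real.mul_rpow (by norm_num) hJ0.le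
        _ ≤ 4 / 3 * J ^ (A - 1) := by
            have h1 : (4 / 3 : ℝ) ^ (A - 1) ≤ (4 / 3) ^ (1 : ℝ) :=
              Real.rpow_le_rpow_of_exponent_le (by norm_num) (by linarith)
            rw [Real.rpow_one] at h1
            gcongr
    have h3 : Real.log J ≤ Real.log j := Real.log_le_log hJ0 (hS j hj).2.1
    rw [Real.log_rpow hJ0, div_le_div_iff₀ (by linarith) (by positivity)]
    have h4 : 0 ≤ HH A j := Real.rpow_nonneg (Nat.cast_nonneg _) _
    calc HH A j * (100 * (A * Real.log J)) ≤ (4 / 3 * J ^ (A - 1)) * (100 * (2 * Real.log J)) := by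
          gcongr
      _ ≤ J ^ (A - 1) * (400 * Real.log J) := by nlinarith [mul_pos hHpos hlog]
      _ ≤ J ^ (A - 1) * (400 * Real.log j) := by gcongr

theorem famA : Pool.Agent.H392Z.MO.S_FamA := by
  classical
  intro hF lam hlam
  refine ⟨min (lam / 4) (1 / 100), by positivity, fun A hA2 hA1 => ?_⟩
  obtain ⟨C, J₀, hC, h⟩ := shell hF hlam hA2 (by linarith [min_le_left (lam / 4) (1 / 100)])
    (by linarith [min_le_right (lam / 4) (1 / 100)])
  set q : ℝ := (3 / 4) ^ lam with hq
  have hq0 : 0 < q := by positivity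
  have hq1 : q < 1 := Real.rpow_lt_one (by norm_num) (by norm_num) hlam
  obtain ⟨I₀, hI₀⟩ := exists_nat_ge (max (4 / 3 * J₀) 2)
  set C' : ℝ := (I₀ + 1) + C * q / (1 - q) with hC'
  have h1q : 0 < 1 - q := by linarith
  have hC'pos : 0 < C' := by positivity
  have hstep : (C' + C) * q ≤ C' := by
    have e : C * q / (1 - q) * (1 - q) = C * q := by field_simp
    have : (0 : ℝ) ≤ (I₀ + 1) * (1 - q) := by positivity
    rw [hC']
    nlinarith
  refine ⟨C', hC'pos, fun I => ?_⟩
  induction I using Nat.strong_induction_on with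
  | _ I ih =>
    intro hI
    have hI1 : (1 : ℝ) ≤ I := by exact_mod_cast hI
    have hIl : (1 : ℝ) ≤ (I : ℝ) ^ lam := Real.one_le_rpow hI1 hlam.le
    rcases le_or_gt I I₀ with hle | hlt
    · have h1 : ((Finset.range (I + 1)).filter (fun c => c ∈ {j | Poor A j})).card ≤ I₀ + 1 :=
        (card_filter_le _ _).trans (by simp; omega)
      have h2 : (((Finset.range (I + 1)).filter (fun c => c ∈ {j | Poor A j})).card : ℝ) ≤
          I₀ + 1 := by exact_mod_cast h1
      have h3 : (I₀ : ℝ) + 1 ≤ C' := by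
        rw [hC']; have : 0 ≤ C * q / (1 - q) := by positivity
        linarith
      refine le_trans ?_ (le_mul_of_one_le_right hC'pos.le hIl)
      convert h2.trans h3
    · have hI0' : (I₀ : ℝ) < I := by exact_mod_cast hlt
      have hI2 : 2 < I := by
        have : (2 : ℝ) < I := by linarith [le_max_right (4 / 3 * J₀) 2]
        exact_mod_cast this
      have hJ : J₀ ≤ 3 / 4 * (I : ℝ) := by linarith [le_max_left (4 / 3 * J₀) 2]
      set I' : ℕ := 3 * I / 4 with hI'
      have hI'le : (I' : ℝ) ≤ 3 / 4 * I := by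
        have : 4 * I' ≤ 3 * I := by omega
        have : (4 : ℝ) * I' ≤ 3 * I := by exact_mod_cast this
        linarith
      have a1 := ih I' (by omega) (by omega)
      have a2 := h _ hJ ((Finset.Ioc I' I).filter (fun c => c ∈ {j | Poor A j})) (by
        intro j hj
        simp only [mem_filter, Finset.mem_Ioc, Set.mem_ofPred_eq] at hj
        refine ⟨hj.2, ?_, ?_⟩
        · have : 3 * I ≤ 4 * j := by omega
          have : (3 : ℝ) * I ≤ 4 * j := by exact_mod_cast this
          linarith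
        · have : (j : ℝ) ≤ I := by exact_mod_cast hj.1.2
          linarith)
      have a3 : ((Finset.range (I + 1)).filter (fun c => c ∈ {j | Poor A j})).card ≤
          ((Finset.range (I' + 1)).filter (fun c => c ∈ {j | Poor A j})).card +
            ((Finset.Ioc I' I).filter (fun c => c ∈ {j | Poor A j})).card := by
        refine le_trans (card_le_card ?_) (card_union_le _ _)
        intro j hj
        simp only [mem_filter, mem_union, Finset.mem_range, Finset.mem_Ioc] at hj ⊢
        rcases le_or_gt j I' with h1 | h1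
        · left; exact ⟨by omega, hj.2⟩
        · right; exact ⟨⟨h1, by omega⟩, hj.2⟩
      have a4 : (((Finset.range (I + 1)).filter (fun c => c ∈ {j | Poor A j})).card : ℝ) ≤
          (((Finset.range (I' + 1)).filter (fun c => c ∈ {j | Poor A j})).card : ℝ) +
            (((Finset.Ioc I' I).filter (fun c => c ∈ {j | Poor A j})).card : ℝ) := by
        exact_mod_cast a3
      have a5 : (3 / 4 * (I : ℝ)) ^ lam = q * (I : ℝ) ^ lam :=
        Real.mul_rpow (by norm_num) (by linarith)
      have a6 : (I' : ℝ) ^ lam ≤ q * (I : ℝ) ^ lam := by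
        rw [← a5]; exact Real.rpow_le_rpow (Nat.cast_nonneg _) hI'le hlam.le
      have a7 : C' * (I' : ℝ) ^ lam ≤ C' * (q * (I : ℝ) ^ lam) := by gcongr
      have a8 : (C' + C) * q * (I : ℝ) ^ lam ≤ C' * (I : ℝ) ^ lam := by gcongr
      rw [a5] at a2
      have a9 : (((Finset.range (I + 1)).filter (fun c => c ∈ {j | Poor A j})).card : ℝ) ≤
          C' * (I : ℝ) ^ lam := by
        have a1' : (((Finset.range (I' + 1)).filter (fun c => c ∈ {j | Poor A j})).card : ℝ) ≤
            C' * (I' : ℝ) ^ lam := by convert a1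
        nlinarith
      convert a9

end Pool.Agent.H949Z.MO
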